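import Pool.Agent.Helper88_ABB.CvcB
import Pool.Agent.Helper94_ABB.YAll
import Pool.Agent.Helper94_ABB.Q1All

/-!
# Case V is impossible (MP_d857f1_al, part B, section 7): module CVC
-/

set_option autoImplicit false

namespace Pool.Agent.ABA.B.H88C

open Pool.Agent.ABA Pool.Agent.ABA.B Pool.Agent.ABA.B.H17 Pool.Agent.ABA.B.H50

/-- the standing hypotheses hold -/
theorem env_ {G : Type} [Group G] {A B : Subgroup G} {g : G} {hg : ¬ IsABA A B g}
    {hgeo : Geo A B} {hι : Function.Injective (Pι A B g)}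
    (hA : ∀ x ∈ A, ∀ y ∈ A, x * y = y * x) : Env hg hgeo hι where
  hA := hA
  M := modsAll
  hSC := scAll hg hgeo hι
  hQ := H94.q1_ hA

/-- **case V** -/
theorem vall : H94.VAll := by
  intro G _ A B g hg hgeo hι hA K L hK hc hL T hT hV
  refine cvc (env_ hA) (Fr.ok_ofT hc hL hT hV ?_)
  rcases hK with rfl | rfl
  · exact Or.inl hT
  · exact Or.inr hT

/-- **the theorem** from E6 without common vertices -/
theorem final3 (hE1 : H94.FarAll) :
    ∃ (G : Type) (_ : Group G) (A B : Subgroup G), IsCyclic A ∧ IsCyclic B ∧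
      (∀ g : G, ∃ x ∈ A, ∃ y ∈ B, ∃ z ∈ A, g = x * y * z) ∧ ¬ Group.IsSolvable G :=
  H94.final2 vall hE1

end Pool.Agent.ABA.B.H88C
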