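import Pool.Agent.Helper88_ABB.CvcAtt

/-!
# Case V: the count, case A: both lobes have slits (MP_d857f1_al, part B, section 7)
-/

set_option autoImplicit false

namespace Pool.Agent.ABA.B.H88C

open Knd Pool.Agent.ABA Pool.Agent.ABA.B Pool.Agent.ABA.B.TG Pool.Agent.ABA.B.H17
  Pool.Agent.ABA.B.H49 Pool.Agent.ABA.B.H50 Pool.Agent.ABA.B.H70L

variable {G : Type} [Group G] {A B : Subgroup G} {g : G}
variable {hg : ¬ IsABA A B g} {hgeo : Geo A B} {hι : Function.Injective (Pι A B g)}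

theorem kinv_ne (k : Knd) : kinv k ≠ k := by cases k <;> simp [kinv]

theorem TFst.app {v t : List (XE A B g)} (h : TFst v) : TFst (v ++ t) := by
  obtain ⟨e, f, w, rfl, h1⟩ := h
  exact ⟨e, f, w ++ t, by simp, h1⟩

theorem TLst.app {v t : List (XE A B g)} (h : TLst v) : TLst (t ++ v) := by
  obtain ⟨w, f, e, rfl, h1⟩ := h
  exact ⟨t ++ w, f, e, by simp, h1⟩

/-- in a plane -/
theorem isH_pl {e : XE A B g} {c : Car A B g} (h : car e = c) (hc : IsPl c) :
    (kndE e).isH = true := by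
  obtain ⟨q, rfl⟩ := hc
  exact Exc.isH_of_plane h

namespace CV

variable {F : Fr A B g} {p q : XV A B g} {γ s b γ' s' a : List (XE A B g)}
  {av : ℕ → XE A B g} {W : ℕ → List (XE A B g)} {I : List (List (XE A B g))}

/-- length of the word -/
theorem len (_ : CV hg hgeo hι F p q γ s b γ' s' a av W I) {P1 P2 P3 : ℕ}
    (e1 : P1 = (lobe hg hgeo hι F.x γ s).length) (e2 : P2 = P1 + b.length)
    (e3 : P3 = P2 + (lobe hg hgeo hι F.x' γ' s').length) :
    (F.word hg hgeo hι γ s b γ' s' a).length = P3 + a.length := by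
  rw [e3, e2, e1]
  simp [Fr.word, add_assoc]

theorem WN (h : CV hg hgeo hι F p q γ s b γ' s' a av W I) {P1 P2 P3 : ℕ}
    (e1 : P1 = (lobe hg hgeo hι F.x γ s).length) (e2 : P2 = P1 + b.length)
    (e3 : P3 = P2 + (lobe hg hgeo hι F.x' γ' s').length) : W (P3 + a.length) = W 0 := by
  have := h.D.bd.perW 0
  rwa [h.len e1 e2 e3, Nat.zero_add] at this

/-- the last letter of the word, `a ≠ []` -/
theorem wk0 (h : CV hg hgeo hι F p q γ s b γ' s' a av W I) {e t : XE A B g}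
    {r a0 : List (XE A B g)} (hr : F.word hg hgeo hι γ s b γ' s' a = e :: r)
    (ha : a = a0 ++ [t]) : Wk (XX hg hgeo hι) (W 0) (xinv t) e := by
  refine wk_zero h.D hr ?_
  unfold Fr.word
  rw [ha, ← List.append_assoc, List.getLast?_append]
  simp

/-- the first letter of the first slit -/
theorem first1 (E : Env hg hgeo hι) (h : CV hg hgeo hι F p q γ s b γ' s' a av W I)
    (hk : 1 ≤ F.k hg hgeo hι) : ∃ e γ1, γ = e :: γ1 ∧ car e ≠ F.H := by
  obtain ⟨e, γ2, h1, h2, h3, -⟩ := (h.ex E).first2 (by rw [h.ok.ex_k']; exact hk)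
  exact ⟨e, γ2, h1, h3⟩

/-- `b = []`, `|a| = 1`, two slits: the three corners have at least five triangles -/
theorem three (E : Env hg hgeo hι) (h : CV hg hgeo hι F p q γ s b γ' s' a av W I)
    (hk : 1 ≤ F.k hg hgeo hι) (hk' : 1 ≤ F.k' hg hgeo hι) (hb : b = []) {t : XE A B g}
    (ha : a = [t]) (hH : IsPl F.H) {P1 P3 : ℕ} (e1 : P1 = (lobe hg hgeo hι F.x γ s).length)
    (e3 : P3 = P1 + (lobe hg hgeo hι F.x' γ' s').length) :
    vl W 0 + vl W P1 + vl W P3 ≤ 4 := by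
  obtain ⟨e, γ1, g1, ce⟩ := h.first1 E hk
  obtain ⟨e', γ2, g2, -, ce', -⟩ := h.first2 hk'
  have hW := h.WN e1 (by rw [hb]; rfl) e3
  have cl := h.cl
  have fl := (flat_ E.hA E.M E.hSC _ _ _ _ _ _ _ _ _ _ (by simp [Fr.word]) cl h.D h.fma).1
    P3 (by rw [e3, e1, hb]; simp) (by rw [e3, e1, hb, ha]; simp)
  subst hb ha g1 g2
  have w0 := h.wk0 (a0 := []) (e := e) (t := t) (r := ((γ1 ++ s ++
    ((XX hg hgeo hι).rv γ1).map (actE F.x)) ++ [actE F.x (xinv e)]) ++
      (lobe hg hgeo hι F.x' (e' :: γ2) s' ++ [t])) (by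
      unfold Fr.word
      rw [lobe_cons (γ := γ1)]
      simp) rfl
  obtain ⟨m1, hm1⟩ : ∃ m, m = γ1 ++ s ++ ((XX hg hgeo hι).rv γ1).map (actE F.x) := ⟨_, rfl⟩
  obtain ⟨m2, hm2⟩ : ∃ m, m = γ2 ++ s' ++ ((XX hg hgeo hι).rv γ2).map (actE F.x') := ⟨_, rfl⟩
  have hl1 : lobe hg hgeo hι F.x (e :: γ1) s = e :: (m1 ++ [actE F.x (xinv e)]) := by
    rw [lobe_cons, hm1]
  have hl2 : lobe hg hgeo hι F.x' (e' :: γ2) s' = e' :: (m2 ++ [actE F.x' (xinv e')]) := by
    rw [lobe_cons, hm2]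
  have hw : F.word hg hgeo hι (e :: γ1) s [] (e' :: γ2) s' [t] =
      (e :: m1) ++ actE F.x (xinv e) :: e' :: (m2 ++ [actE F.x' (xinv e'), t]) := by
    unfold Fr.word
    rw [hl1, hl2]
    simp
  rw [hl1] at e1
  rw [hl2] at e3
  have w1 := dw_wk h.D hw
  rw [show (e :: m1).length + 1 = P1 by rw [e1]; simp, xinv_act, xii e hg hgeo hι] at w1
  have w3 := dw_wk (l := (e :: m1) ++ actE F.x (xinv e) :: e' :: m2)
    (b := actE F.x' (xinv e')) (c := t) (r := []) h.D (by rw [hw]; simp)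
  rw [show ((e :: m1) ++ actE F.x (xinv e) :: e' :: m2).length + 1 = P3 by
    rw [e3, e1]; simp; omega, xinv_act, xii e' hg hgeo hι] at w3
  -- move everything to `p`
  have v1 : Wk (XX hg hgeo hι) ((W P1).map (actE F.x⁻¹)) e (actE F.x⁻¹ e') := by
    have := Slt.wk_map (k := F.x⁻¹) w1
    rwa [Slt.actE_inv_act] at this
  have v3 : Wk (XX hg hgeo hι) ((W P3).map (actE (F.x' * F.x)⁻¹)) (actE F.x⁻¹ e')
      (actE (F.x' * F.x)⁻¹ t) := by
    have := Slt.wk_map (k := (F.x' * F.x)⁻¹) w3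
    rwa [Exc.actE_comp, show (F.x' * F.x)⁻¹ * F.x' = F.x⁻¹ by group] at this
  obtain ⟨u, hu, hul, -, ⟨t1, ht1⟩, -⟩ := Exc.wk_join w0 v1
  obtain ⟨v, hv, hvl, -, ⟨t2, ht2⟩, ⟨t3, ht3⟩⟩ := Exc.wk_join hu v3
  have ct : car t = F.H := h.po.ha.2 t (by simp)
  have cζ : car (actE (F.x' * F.x)⁻¹ t) = F.H := by
    rw [car_act, ct, inv_smul_eq_iff]
    exact (h.zeta E).2.symm
  rw [List.length_singleton] at hW
  have f0 : TFst (W 0) := by rw [← hW]; exact fl.2
  have key := tw_ G A B g hg hgeo hι E.hA v _ _ hv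
    (by rw [ht2, ht1]; exact TFst.app (TFst.app f0))
    (by rw [ht3]; exact TLst.app (TLst.act fl.1 _))
    (isH_pl ((car_inv t).trans ct) hH) (by rw [car_inv, ct, cζ]) (by
      intro h1
      have h2 := congrArg kndE h1
      rw [kndE_xinv, kndE_act] at h2
      exact kinv_ne _ h2)
  have k1 := key.1
  rw [List.length_map] at hul hvl
  unfold vl
  omega

/-- **case A2**: `b = []`, `a ≠ []` -/
theorem caseA2 (E : Env hg hgeo hι) (h : CV hg hgeo hι F p q γ s b γ' s' a av W I)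
    (hk : 1 ≤ F.k hg hgeo hι) (hk' : 1 ≤ F.k' hg hgeo hι) (hb : b = []) (ha : a ≠ []) :
    False := by
  obtain ⟨P1, e1⟩ : ∃ P1, P1 = (lobe hg hgeo hι F.x γ s).length := ⟨_, rfl⟩
  obtain ⟨P3, e3⟩ : ∃ P3, P3 = P1 + (lobe hg hgeo hι F.x' γ' s').length := ⟨_, rfl⟩
  have hb0 : b.length = 0 := by rw [hb]; rfl
  have tot := h.total E e1 (P2 := P1) (by rw [hb0]; rfl) e3
  have n1 := h.n1
  have n2 := h.n2
  rw [Finset.Ico_self, Finset.sum_empty, show P1 = 0 + P1 by omega, sum_piece W 0 P1 (by omega),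
    Nat.zero_add, show P3 = P1 + (lobe hg hgeo hι F.x' γ' s').length from e3,
    sum_piece W P1 _ (by omega), ← e3,
    sum_piece W P3 _ (fun h0 => ha (List.eq_nil_of_length_eq_zero h0))] at tot
  obtain ⟨i1, i2⟩ := h.int12 E hk hk' e1 (P2 := P1) (by rw [hb0]; rfl) e3
  obtain ⟨j1, j2⟩ := h.inta E ha (P3 := P3) (by rw [e3, hb0, e1]; rfl)
  have l1 := vl_le h.D 0
  have l2 := vl_le h.D P1
  have l3 := vl_le h.D P3
  have hapos : 1 ≤ a.length := Nat.pos_of_ne_zero (fun h0 => ha (List.eq_nil_of_length_eq_zero h0))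
  rcases Nat.eq_or_lt_of_le hapos with h1 | h1
  · -- one letter
    obtain ⟨t, ht⟩ : ∃ t, a = [t] := List.length_eq_one_iff.1 h1.symm
    rcases h.ok.kls with ⟨c1, c2, c3, c4⟩ | ⟨-, -, -, -, -, -, n3⟩
    · have key := h.three E hk hk' hb ht c3 e1 e3
      have := j1 c3
      rw [← h1] at this
      push_cast at this
      linarith
    · -- no translation of length one
      subst hb
      have hside := h.po.ha
      rw [ht] at hside
      have hq : F.x • p = q := h.po.hb.1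
      rw [← hq, ← mul_smul] at hside
      exact NTwo.no' n3 hside
  · have ha2 : (2 : ℤ) ≤ (a.length : ℤ) := by exact_mod_cast h1
    rcases h.ok.kls with ⟨c1, c2, c3, c4⟩ | ⟨-, r1, r2, -, -, -, n3⟩
    · have := j1 c3
      linarith
    · have := i2 r1 r2
      linarith

/-- **case A**: both lobes have slits -/
theorem caseA (E : Env hg hgeo hι) (h : CV hg hgeo hι F p q γ s b γ' s' a av W I)
    (hk : 1 ≤ F.k hg hgeo hι) (hk' : 1 ≤ F.k' hg hgeo hι) : False := by
  by_cases hb : b = []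
  · by_cases ha : a = []
    · -- both hub sides are trivial
      obtain ⟨P1, e1⟩ : ∃ P1, P1 = (lobe hg hgeo hι F.x γ s).length := ⟨_, rfl⟩
      obtain ⟨P3, e3⟩ : ∃ P3, P3 = P1 + (lobe hg hgeo hι F.x' γ' s').length := ⟨_, rfl⟩
      have hb0 : b.length = 0 := by rw [hb]; rfl
      have ha0 : a.length = 0 := by rw [ha]; rfl
      have tot := h.total E e1 (P2 := P1) (by rw [hb0]; rfl) e3
      have n1 := h.n1
      have n2 := h.n2
      rw [Finset.Ico_self, Finset.sum_empty, show P1 = 0 + P1 by omega,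
        sum_piece W 0 P1 (by omega), Nat.zero_add,
        show P3 = P1 + (lobe hg hgeo hι F.x' γ' s').length from e3,
        sum_piece W P1 _ (by omega), ← e3, ha0, Nat.add_zero, Finset.Ico_self,
        Finset.sum_empty] at tot
      obtain ⟨i1, i2⟩ := h.int12 E hk hk' e1 (P2 := P1) (by rw [hb0]; rfl) e3
      obtain ⟨r1, r2, -⟩ := h.nil2 E hb ha
      have := i2 r1 r2
      have l1 := vl_le h.D 0
      have l2 := vl_le h.D P1
      linarith
    · exact h.caseA2 E hk hk' hb ha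
  · by_cases ha : a = []
    · exact (h.ex E).caseA2 E (by rw [h.ok.ex_k]; exact hk') (by rw [h.ok.ex_k']; exact hk) ha hb
    · obtain ⟨P1, e1⟩ : ∃ P1, P1 = (lobe hg hgeo hι F.x γ s).length := ⟨_, rfl⟩
      obtain ⟨P2, e2⟩ : ∃ P2, P2 = P1 + b.length := ⟨_, rfl⟩
      obtain ⟨P3, e3⟩ : ∃ P3, P3 = P2 + (lobe hg hgeo hι F.x' γ' s').length := ⟨_, rfl⟩
      have tot := h.total E e1 e2 e3
      have n1 := h.n1
      have n2 := h.n2
      have hb0 : b.length ≠ 0 := fun h0 => hb (List.eq_nil_of_length_eq_zero h0)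
      have ha0 : a.length ≠ 0 := fun h0 => ha (List.eq_nil_of_length_eq_zero h0)
      have q1 := sum_piece W 0 P1 (by omega)
      rw [Nat.zero_add] at q1
      have q2 := sum_piece W P1 _ hb0
      rw [← e2] at q2
      have q3 := sum_piece W P2 (lobe hg hgeo hι F.x' γ' s').length (by omega)
      rw [← e3] at q3
      rw [q1, q2, q3, sum_piece W P3 _ ha0] at tot
      obtain ⟨i1, i2⟩ := h.int12 E hk hk' e1 e2 e3
      have j1 := (h.inta E ha (P3 := P3) (by rw [e3, e2, e1])).2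
      have j2 := (h.intb E hb e1 e2).2
      have t1 := h.attach1 E hk hb ha
      rw [← e1] at t1
      have t2 := h.attach E hk' hb ha (P2 := P2) (by rw [e2, e1]) e3
      have p1 : (1 : ℤ) ≤ (a.length : ℤ) := by exact_mod_cast Nat.pos_of_ne_zero ha0
      have p2 : (1 : ℤ) ≤ (b.length : ℤ) := by exact_mod_cast Nat.pos_of_ne_zero hb0
      linarith

end CV

end Pool.Agent.ABA.B.H88C
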