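import Pool.Agent.Helper88_ABB.CvcSet

/-!
# Case V: the count, corners (MP_d857f1_al, part B, section 7)
-/

set_option autoImplicit false

namespace Pool.Agent.ABA.B.H88C

open Knd Pool.Agent.ABA Pool.Agent.ABA.B Pool.Agent.ABA.B.TG Pool.Agent.ABA.B.H17
  Pool.Agent.ABA.B.H49 Pool.Agent.ABA.B.H50 Pool.Agent.ABA.B.H70L

variable {G : Type} [Group G] {A B : Subgroup G} {g : G}
variable {hg : ¬ IsABA A B g} {hgeo : Geo A B} {hι : Function.Injective (Pι A B g)}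

/-- first letters of the slit and of its copy -/
theorem lobe_cons (z : PP A B g) (e : XE A B g) (γ s : List (XE A B g)) :
    lobe hg hgeo hι z (e :: γ) s =
      e :: ((γ ++ s ++ ((XX hg hgeo hι).rv γ).map (actE z)) ++ [actE z (xinv e)]) := by
  unfold lobe
  rw [rv_cons]
  simp only [List.map_append, List.map_cons, List.map_nil, List.append_assoc, List.cons_append]
  rfl

theorem xii (e : XE A B g) (hg : ¬ IsABA A B g) (hgeo : Geo A B)
    (hι : Function.Injective (Pι A B g)) : xinv (xinv e) = e := (XX hg hgeo hι).inv_inv e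

namespace CV

variable {F : Fr A B g} {p q : XV A B g} {γ s b γ' s' a : List (XE A B g)}
  {av : ℕ → XE A B g} {W : ℕ → List (XE A B g)} {I : List (List (XE A B g))}

/-- the first letter of the second slit -/
theorem first2 (h : CV hg hgeo hι F p q γ s b γ' s' a av W I) (hk' : 1 ≤ F.k' hg hgeo hι) :
    ∃ e γ2, γ' = e :: γ2 ∧ γ2.length + 1 = F.k' hg hgeo hι ∧ car e ≠ F.H' ∧ xsrc e = q ∧
      ∃ y, On F.C' y ∧ (XX hg hgeo hι).IsP (xsrc (xinv e)) γ2 y ∧
        SideP hg hgeo hι F.C' y (F.x' • y) s' := by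
  obtain ⟨y, h1, h2, h3⟩ := h.po.l2.mid
  have hl := h.po.l2.len
  obtain ⟨e, γ2, rfl⟩ : ∃ e γ2, γ' = e :: γ2 := by
    cases γ' with
    | nil => simp at hl; omega
    | cons e γ2 => exact ⟨e, γ2, rfl⟩
  have hl' : γ2.length + 1 = F.k' hg hgeo hι := by simpa using hl
  refine ⟨e, γ2, rfl, hl', ?_, h2.1, y, h1, h2.2, h3⟩
  intro hc
  have h5 : On F.H' (xsrc (xinv e)) := by rw [← hc]; exact On_tgt e
  have h6 := dVC_path (hg := hg) (hgeo := hgeo) (hι := hι) h1 h2.2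
  have h7 := dCC_le_dVC (hg := hg) (hgeo := hgeo) (hι := hι) (c' := F.C') h5
  rw [dCC_comm] at h7
  unfold Fr.k' at hl'
  have h8 : dVC hg hgeo hι ((XX hg hgeo hι).tgt e) F.C' = dVC hg hgeo hι (xsrc (xinv e)) F.C' :=
    rfl
  omega

/-- **ATTACH** at `q` -/
theorem attach (E : Env hg hgeo hι) (h : CV hg hgeo hι F p q γ s b γ' s' a av W I)
    (hk' : 1 ≤ F.k' hg hgeo hι) (hb : b ≠ []) (ha : a ≠ []) {P2 P3 : ℕ}
    (e2 : P2 = (lobe hg hgeo hι F.x γ s).length + b.length)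
    (e3 : P3 = P2 + (lobe hg hgeo hι F.x' γ' s').length) : vl W P2 + vl W P3 ≤ 2 := by
  obtain ⟨e, γ2, rfl, hl, hce, hq, y, hy, hγ2, hs'⟩ := h.first2 hk'
  obtain ⟨b0, xb, rfl⟩ : ∃ b0 xb, b = b0 ++ [xb] :=
    ⟨b.dropLast, b.getLast hb, (List.dropLast_append_getLast hb).symm⟩
  obtain ⟨fa, a1, rfl⟩ : ∃ fa a1, a = fa :: a1 := List.exists_cons_of_ne_nil ha
  have hcl := h.cl
  have hP := h.po
  have hw : F.word hg hgeo hι γ s (b0 ++ [xb]) (e :: γ2) s' (fa :: a1) =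
      (lobe hg hgeo hι F.x γ s ++ b0) ++ xb :: e ::
        ((γ2 ++ s' ++ ((XX hg hgeo hι).rv γ2).map (actE F.x')) ++
          actE F.x' (xinv e) :: fa :: a1) := by
    unfold Fr.word
    rw [lobe_cons]
    simp
  have hlen2 : (lobe hg hgeo hι F.x' (e :: γ2) s').length =
      (γ2 ++ s' ++ ((XX hg hgeo hι).rv γ2).map (actE F.x')).length + 2 := by
    rw [lobe_cons]
    simp
    omega
  obtain ⟨m, hm⟩ : ∃ m, m = γ2 ++ s' ++ ((XX hg hgeo hι).rv γ2).map (actE F.x') := ⟨_, rfl⟩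
  rw [← hm] at hlen2 hw
  rw [List.length_append, List.length_singleton] at e2
  -- the walks
  have w1 := dw_wk h.D hw
  rw [List.length_append, show (lobe hg hgeo hι F.x γ s).length + b0.length + 1 = P2 by omega]
    at w1
  have w2 := dw_wk (l := (lobe hg hgeo hι F.x γ s ++ b0) ++ xb :: e :: m)
    (b := actE F.x' (xinv e)) (c := fa) (r := a1) h.D (by rw [hw]; simp)
  rw [show ((lobe hg hgeo hι F.x γ s ++ b0) ++ xb :: e :: m).length + 1 = P3 by
    rw [e3, hlen2, e2]; simp; omega, xinv_act, xii e hg hgeo hι] at w2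
  -- T-first and T-last
  have hb1 := h.fmb
  have f1 := (flat_ E.hA E.M E.hSC _ _ _ _ _ _ _ _ _ _ (by simp [Fr.word]) hcl h.D h.fmb).1
    ((lobe hg hgeo hι F.x γ s).length + b0.length) (by omega) (by simp)
  rw [show (lobe hg hgeo hι F.x γ s).length + b0.length + 1 = P2 by omega] at f1
  have f2 := (flat_ E.hA E.M E.hSC _ _ _ _ _ _ _ _ _ _ (by simp [Fr.word]) hcl h.D h.fma).1
    P3 (by rw [e3, hlen2, e2]; simp; omega) (by rw [e3, hlen2, e2]; simp; omega)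
  -- carriers
  have cx : car xb = F.H' := hP.hb.2 xb (by simp)
  have cf : car fa = F.H := hP.ha.2 fa (by simp)
  have xH' : F.x'⁻¹ • F.H = F.H' := by
    rw [inv_smul_eq_iff]; exact h.ok.xH'.symm
  have hfa : actE F.x' (actE F.x'⁻¹ fa) = fa := Slt.actE_act_inv _ _
  have key := attach_ E.hA F.H' F.x' (actE F.x'⁻¹ fa) (xinv xb) e (W P2) (W P3)
    (by rw [car_act, cf, xH']) (by rw [car_inv, cx]) hce w1 (by rw [hfa]; exact w2)
    (h.D.bd.red _) (h.D.bd.red _) f1.2 f2.1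
  rcases key with ⟨k1, k2, k3, k4⟩ | ⟨k1, -⟩
  swap
  · exact k1
  -- foot moving
  exfalso
  have hfa2 : fa = actE F.x' (xinv xb) := by rw [← k1, hfa]
  subst hfa2
  have hinv : ∀ z : PP A B g, actE z⁻¹ (actE z (xinv xb)) = xinv xb := fun z =>
    Slt.actE_inv_act _ _
  rw [hinv] at k2 k3 k4
  have hw' : F.word hg hgeo hι γ s (b0 ++ [xb]) (e :: γ2) s' (actE F.x' (xinv xb) :: a1) =
      (lobe hg hgeo hι F.x γ s ++ b0) ++ xinv (xinv xb) :: e :: (m ++
        actE F.x' (xinv e) :: actE F.x' (xinv xb) :: a1) := by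
    rw [hw, xii xb hg hgeo hι]
  obtain ⟨f, s1, s2, s3, s4, s5⟩ := foot_ E.M E.hSC F.x' (xinv xb) e
    (lobe hg hgeo hι F.x γ s ++ b0) m a1 _ _ _ _ hw' hcl h.D
    (by rw [List.length_append,
      show (lobe hg hgeo hι F.x γ s).length + b0.length + 1 = P2 by omega]; exact k2)
    (by
      rw [show (lobe hg hgeo hι F.x γ s ++ b0).length + 2 + m.length + 1 = P3 by
        rw [e3, hlen2, e2]; simp; omega]
      exact k3)
  -- the new polygon
  obtain ⟨n, hb0, hbx⟩ := isP_append.1 hP.hb.1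
  have hn : xsrc xb = n := hbx.1
  have hsq : xsrc (xinv xb) = q := hbx.2
  have hside0 : SideP hg hgeo hι F.H' (F.x • p) n b0 :=
    ⟨hb0, fun d hd => hP.hb.2 d (List.mem_append_left _ hd)⟩
  have onn : On F.H' n := by rw [← hn, ← cx]; exact On_src xb
  have hfsrc : xsrc f = n := by rw [s1, xii xb hg hgeo hι, hn]
  have hnew : F.Poly hg hgeo hι p n γ s b0 (f :: γ2) s' a1 := by
    have hl2 : IsLobe hg hgeo hι F.C' F.x' n (F.k' hg hgeo hι) (f :: γ2) s' := by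
      refine ⟨?_, ⟨y, hy, ⟨hfsrc, ?_⟩, hs'⟩, hP.l2.rot⟩
      · rw [← hl]; rfl
      · have : (XX hg hgeo hι).tgt f = xsrc (xinv e) := s2
        rw [this]
        exact hγ2
    refine ⟨hP.hp, onn, hP.l1, hl2, hside0, ?_⟩
    · have h1 := hP.ha.1
      obtain ⟨-, h2⟩ := h1
      have h3 : (XX hg hgeo hι).tgt (actE F.x' (xinv xb)) = F.x' • n := by
        change xsrc (xinv (actE F.x' (xinv xb))) = _
        rw [xinv_act, xii xb hg hgeo hι, xsrc_act, hn]
      rw [h3] at h2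
      exact ⟨h2, fun d hd => hP.ha.2 d (List.mem_cons_of_mem _ hd)⟩
  have h1 := (h.mi _ _ _ _ _ _ _ _ hnew).1
  unfold Fr.area at h1
  have hwn : F.word hg hgeo hι γ s b0 (f :: γ2) s' a1 =
      (lobe hg hgeo hι F.x γ s ++ b0) ++ f :: (m ++ actE F.x' (xinv f) :: a1) := by
    unfold Fr.word
    rw [lobe_cons, hm]
    simp
  rw [hwn] at h1
  omega

/-- **ATTACH** at `p` -/
theorem attach1 (E : Env hg hgeo hι) (h : CV hg hgeo hι F p q γ s b γ' s' a av W I)
    (hk : 1 ≤ F.k hg hgeo hι) (hb : b ≠ []) (ha : a ≠ []) :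
    vl W 0 + vl W (lobe hg hgeo hι F.x γ s).length ≤ 2 := by
  have h1 := (h.ex E).attach E (by rw [h.ok.ex_k']; exact hk) ha hb rfl rfl
  have hN : (F.word hg hgeo hι γ s b γ' s' a).length =
      (lobe hg hgeo hι F.x' γ' s').length + a.length +
        ((lobe hg hgeo hι F.x γ s).length + b.length) := by
    unfold Fr.word
    simp only [List.length_append]
    omega
  have h2 : W ((lobe hg hgeo hι F.x' γ' s').length + a.length +
      ((lobe hg hgeo hι F.x γ s).length + b.length)) = W 0 := by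
    have := h.D.bd.perW 0
    rwa [hN, Nat.zero_add] at this
  have h3 : W ((lobe hg hgeo hι F.x' γ' s').length + a.length +
      (lobe hg hgeo hι F.x γ s).length +
      ((lobe hg hgeo hι F.x γ s).length + b.length)) =
      W (lobe hg hgeo hι F.x γ s).length := by
    have := h.D.bd.perW (lobe hg hgeo hι F.x γ s).length
    rw [hN] at this
    rw [← this]
    congr 1
    omega
  unfold vl at h1 ⊢
  change 4 - ((W ((lobe hg hgeo hι F.x' γ' s').length + a.length +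
      ((lobe hg hgeo hι F.x γ s).length + b.length))).length : ℤ) +
    (4 - ((W ((lobe hg hgeo hι F.x' γ' s').length + a.length +
      (lobe hg hgeo hι F.x γ s).length +
      ((lobe hg hgeo hι F.x γ s).length + b.length))).length : ℤ)) ≤ 2 at h1
  rwa [h2, h3] at h1

/-! ## sums strictly inside the pieces -/

theorem intb (E : Env hg hgeo hι) (h : CV hg hgeo hι F p q γ s b γ' s' a av W I) (hb : b ≠ [])
    {P1 P2 : ℕ} (e1 : P1 = (lobe hg hgeo hι F.x γ s).length) (e2 : P2 = P1 + b.length) :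
    (IsPl F.H' → vsum W P1 P2 ≤ -2 * ((b.length : ℤ) - 1)) ∧
      vsum W P1 P2 ≤ -((b.length : ℤ) - 1) := by
  subst e1; subst e2
  exact intF_ E.hA E.M E.hSC _ _ _ _ _ _ _ _ _ _ (by simp [Fr.word]) h.cl h.D h.fmb hb

theorem inta (E : Env hg hgeo hι) (h : CV hg hgeo hι F p q γ s b γ' s' a av W I) (ha : a ≠ [])
    {P3 : ℕ} (e3 : P3 = (lobe hg hgeo hι F.x γ s).length + b.length +
      (lobe hg hgeo hι F.x' γ' s').length) :
    (IsPl F.H → vsum W P3 (P3 + a.length) ≤ -2 * ((a.length : ℤ) - 1)) ∧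
      vsum W P3 (P3 + a.length) ≤ -((a.length : ℤ) - 1) := by
  have h1 := intF_ E.hA E.M E.hSC _ _ _ _ _ _ _ _ _ _ (by simp [Fr.word]) h.cl h.D h.fma ha
  simp only [List.length_append] at h1
  rw [← e3] at h1
  exact h1

theorem ints (E : Env hg hgeo hι) (h : CV hg hgeo hι F p q γ s b γ' s' a av W I)
    (hk : F.k hg hgeo hι = 0) :
    (IsPl F.C → vsum W 0 s.length ≤ -2 * ((s.length : ℤ) - 1)) ∧
      vsum W 0 s.length ≤ -((s.length : ℤ) - 1) := by
  have h1 := intF_ E.hA E.M E.hSC _ _ _ _ _ _ _ _ _ _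
    (by rw [(h.k0 hk).1]; simp [Fr.word, lobe_nil]) h.cl h.D (h.fms E hk) (h.s_ne E hk)
  simpa using h1

theorem int1 (E : Env hg hgeo hι) (h : CV hg hgeo hι F p q γ s b γ' s' a av W I)
    (hk : 1 ≤ F.k hg hgeo hι) {P1 : ℕ} (e1 : P1 = (lobe hg hgeo hι F.x γ s).length) :
    (Rot F.x → vsum W 0 P1 ≤ 1) ∧ (¬ Rot F.x → IsPl F.C → vsum W 0 P1 ≤ 0) ∧
      (¬ Rot F.x → IsPl F.C → NTwo hg hgeo hι F.C F.x → vsum W 0 P1 ≤ -1) ∧
      (¬ Rot F.x → IsLn F.C → NTwo hg hgeo hι F.C F.x → vsum W 0 P1 ≤ 1) := by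
  have h1 := intL_ E.hA E.M E.hSC _ _ _ _ _ _ _ _ _ _ _ _ (by simp [Fr.word]) h.cl h.D h.lm1 hk
  rw [List.length_nil, Nat.zero_add, ← e1] at h1
  exact h1

theorem int2 (E : Env hg hgeo hι) (h : CV hg hgeo hι F p q γ s b γ' s' a av W I)
    (hk' : 1 ≤ F.k' hg hgeo hι) {P2 P3 : ℕ}
    (e2 : P2 = (lobe hg hgeo hι F.x γ s).length + b.length)
    (e3 : P3 = P2 + (lobe hg hgeo hι F.x' γ' s').length) :
    (Rot F.x' → vsum W P2 P3 ≤ 1) ∧ (¬ Rot F.x' → IsPl F.C' → vsum W P2 P3 ≤ 0) ∧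
      (¬ Rot F.x' → IsPl F.C' → NTwo hg hgeo hι F.C' F.x' → vsum W P2 P3 ≤ -1) ∧
      (¬ Rot F.x' → IsLn F.C' → NTwo hg hgeo hι F.C' F.x' → vsum W P2 P3 ≤ 1) := by
  have h1 := intL_ E.hA E.M E.hSC _ _ _ _ _ _ _ _ _ _ _ _ (by simp [Fr.word]) h.cl h.D h.lm2 hk'
  rw [List.length_append, ← e2, ← e3] at h1
  exact h1

/-- both lobes have slits -/
theorem int12 (E : Env hg hgeo hι) (h : CV hg hgeo hι F p q γ s b γ' s' a av W I)
    (hk : 1 ≤ F.k hg hgeo hι) (hk' : 1 ≤ F.k' hg hgeo hι) {P1 P2 P3 : ℕ}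
    (e1 : P1 = (lobe hg hgeo hι F.x γ s).length) (e2 : P2 = P1 + b.length)
    (e3 : P3 = P2 + (lobe hg hgeo hι F.x' γ' s').length) :
    vsum W 0 P1 + vsum W P2 P3 ≤ 1 ∧
      (¬ Rot F.x → ¬ Rot F.x' → vsum W 0 P1 + vsum W P2 P3 ≤ 0) := by
  obtain ⟨a1, a2, a3, a4⟩ := h.int1 E hk e1
  obtain ⟨b1, b2, b3, b4⟩ := h.int2 E hk' (by rw [e2, e1]) e3
  rcases h.ok.kls with ⟨c1, c2, c3, c4⟩ | ⟨hc, r1, r2, -, n1, n2, -⟩
  · by_cases r1 : Rot F.x
    · have r2 : ¬ Rot F.x' := fun r => c4 ⟨r1, r⟩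
      exact ⟨by have := a1 r1; have := b2 r2 c2; linarith, fun q => absurd r1 q⟩
    · by_cases r2 : Rot F.x'
      · exact ⟨by have := b1 r2; have := a2 r1 c1; linarith, fun _ q => absurd r2 q⟩
      · have := a2 r1 c1
        have := b2 r2 c2
        exact ⟨by linarith, fun _ _ => by linarith⟩
  · have key : vsum W 0 P1 + vsum W P2 P3 ≤ 0 := by
      rcases hc with ⟨d1, d2, -⟩ | ⟨d1, d2, -⟩ | ⟨d1, d2, -⟩
      · have := a4 r1 d1 n1
        have := b3 r2 d2 n2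
        linarith
      · have := a3 r1 d1 n1
        have := b4 r2 d2 n2
        linarith
      · have := a3 r1 d1 n1
        have := b3 r2 d2 n2
        linarith
    exact ⟨by linarith, fun _ _ => key⟩

/-- `x' x` is not trivial and stabilizes `H` -/
theorem zeta (E : Env hg hgeo hι) (h : CV hg hgeo hι F p q γ s b γ' s' a av W I) :
    F.x' * F.x ≠ 1 ∧ (F.x' * F.x) • F.H = F.H := by
  refine ⟨?_, ?_⟩
  · intro h1
    have h2 : F.x' = F.x⁻¹ := eq_inv_of_mul_eq_one_left h1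
    have h3 : F.x • F.C' = F.C' := by
      have h4 := h.ok.xC'
      rw [h2, inv_smul_eq_iff] at h4
      exact h4.symm
    exact h.ok.dCC' (E.hS F.C F.C' F.x h.ok.x1 h.ok.xC h3)
  · rw [mul_smul, h.ok.xH, h.ok.xH']

/-- if `a = b = []`, both `x` and `x'` are translations and `C, C', H` are planes -/
theorem nil2 (E : Env hg hgeo hι) (h : CV hg hgeo hι F p q γ s b γ' s' a av W I) (hb : b = [])
    (ha : a = []) : ¬ Rot F.x ∧ ¬ Rot F.x' ∧ IsPl F.C ∧ IsPl F.C' := by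
  subst hb; subst ha
  have h1 : F.x • p = q := h.po.hb.1
  have h2 : F.x' • q = p := h.po.ha.1
  have h3 : (F.x' * F.x) • p = p := by rw [mul_smul, h1, h2]
  obtain ⟨z1, z2⟩ := h.zeta E
  have hr : Rot (F.x' * F.x) := by
    by_contra hr
    exact (E.hfix F.H _ z1 z2).2 hr p h3
  rcases h.ok.kls with ⟨c1, c2, c3, c4⟩ | ⟨-, -, -, r3, -⟩
  · refine ⟨?_, ?_, c1, c2⟩
    · intro r
      refine c4 ⟨r, ?_⟩
      have : F.x' = (F.x' * F.x) * F.x⁻¹ := by group
      rw [this]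
      exact Rot_mul hr r.inv
    · intro r
      refine c4 ⟨?_, r⟩
      have : F.x = F.x'⁻¹ * (F.x' * F.x) := by group
      rw [this]
      exact Rot_mul r.inv hr
  · exact absurd hr r3

end CV

end Pool.Agent.ABA.B.H88C
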