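import Pool.Agent.Helper88_ABB.CvcA
import Pool.Agent.Helper50_ABB.CvcT

/-!
# Case V: the count, case B: only the second lobe has a slit (MP_d857f1_al, part B, section 7)
-/

set_option autoImplicit false

namespace Pool.Agent.ABA.B.H88C

open Knd Pool.Agent.ABA Pool.Agent.ABA.B Pool.Agent.ABA.B.TG Pool.Agent.ABA.B.H17
  Pool.Agent.ABA.B.H49 Pool.Agent.ABA.B.H50 Pool.Agent.ABA.B.H70L

variable {G : Type} [Group G] {A B : Subgroup G} {g : G}
variable {hg : ¬ IsABA A B g} {hgeo : Geo A B} {hι : Function.Injective (Pι A B g)}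

theorem TFst.rev {v : List (XE A B g)} (h : TFst v) : TLst v.reverse := by
  obtain ⟨e, f, w, rfl, h1⟩ := h
  exact ⟨w.reverse, f, e, by simp, h1⟩

theorem TLst.rev {v : List (XE A B g)} (h : TLst v) : TFst v.reverse := by
  obtain ⟨w, f, e, rfl, h1⟩ := h
  exact ⟨e, f, w.reverse, by simp, h1⟩

namespace CV

variable {F : Fr A B g} {p q : XV A B g} {γ s b γ' s' a : List (XE A B g)}
  {av : ℕ → XE A B g} {W : ℕ → List (XE A B g)} {I : List (List (XE A B g))}

/-- `b = []`, `|s| = |a| = 1`, one slit: the three corners have at least four triangles -/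
theorem threeB (E : Env hg hgeo hι) (h : CV hg hgeo hι F p q γ s b γ' s' a av W I)
    (hk : F.k hg hgeo hι = 0) (hk' : 1 ≤ F.k' hg hgeo hι) (hb : b = []) {u t : XE A B g}
    (hs : s = [u]) (ha : a = [t]) (hC : IsPl F.C) (hH : IsPl F.H) {P3 : ℕ}
    (e3 : P3 = 1 + (lobe hg hgeo hι F.x' γ' s').length) :
    vl W 0 + vl W 1 + vl W P3 ≤ 5 := by
  obtain ⟨hγ, hCp, hside⟩ := h.k0 hk
  obtain ⟨e', γ2, g2, -, ce', -⟩ := h.first2 hk'
  have hFs := h.fms E hk
  have cl := h.cl
  subst hγ hs hb ha g2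
  have e1 : 1 = (lobe hg hgeo hι F.x [] [u]).length := by rw [lobe_nil]; rfl
  have hW := h.WN e1 (P2 := 1) rfl e3
  rw [List.length_singleton] at hW
  have fla := (flat_ E.hA E.M E.hSC _ _ _ _ _ _ _ _ _ _ (by simp [Fr.word]) cl h.D h.fma).1
    P3 (by rw [e3, lobe_nil]; simp) (by rw [e3, lobe_nil]; simp; omega)
  have fls := (flat_ E.hA E.M E.hSC _ _ _ _ _ _ _ _ _ _ (by simp [Fr.word, lobe_nil]) cl h.D
    hFs).1 0 (by simp) (by simp)
  obtain ⟨m2, hm2⟩ : ∃ m, m = γ2 ++ s' ++ ((XX hg hgeo hι).rv γ2).map (actE F.x') := ⟨_, rfl⟩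
  have hl2 : lobe hg hgeo hι F.x' (e' :: γ2) s' = e' :: (m2 ++ [actE F.x' (xinv e')]) := by
    rw [lobe_cons, hm2]
  have hw : F.word hg hgeo hι [] [u] [] (e' :: γ2) s' [t] =
      [] ++ u :: e' :: (m2 ++ [actE F.x' (xinv e'), t]) := by
    unfold Fr.word
    rw [lobe_nil, hl2]
    simp
  rw [hl2] at e3
  have w0 := h.wk0 (a0 := []) (e := u) (t := t)
    (r := e' :: (m2 ++ [actE F.x' (xinv e'), t])) (by rw [hw]; rfl) rfl
  have w1 := dw_wk h.D hw
  rw [List.length_nil, Nat.zero_add] at w1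
  have w3 := dw_wk (l := u :: e' :: m2)
    (b := actE F.x' (xinv e')) (c := t) (r := []) h.D (by rw [hw]; simp)
  rw [show (u :: e' :: m2).length + 1 = P3 by
    rw [e3]; simp; omega, xinv_act, xii e' hg hgeo hι] at w3
  -- move everything to `p`
  have v1 : Wk (XX hg hgeo hι) ((W 1).map (actE F.x⁻¹)) (actE F.x⁻¹ (xinv u)) (actE F.x⁻¹ e') :=
    Slt.wk_map (k := F.x⁻¹) w1
  have v3 : Wk (XX hg hgeo hι) ((W P3).map (actE (F.x' * F.x)⁻¹)) (actE F.x⁻¹ e')
      (actE (F.x' * F.x)⁻¹ t) := by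
    have := Slt.wk_map (k := (F.x' * F.x)⁻¹) w3
    rwa [Exc.actE_comp, show (F.x' * F.x)⁻¹ * F.x' = F.x⁻¹ by group] at this
  obtain ⟨v, hv, hvl, -, ⟨t1, ht1⟩, ⟨t2, ht2⟩⟩ := Exc.wk_join v1 v3
  have v0 := Exc.wk_rev (fun _ _ h => Exc.cor_sym h) w0
  have cu : car u = F.C := hside.2 u (by simp)
  have ct : car t = F.H := h.po.ha.2 t (by simp)
  have cζ : car (actE (F.x' * F.x)⁻¹ t) = F.H := by
    rw [car_act, ct, inv_smul_eq_iff]
    exact (h.zeta E).2.symm
  have cx : car (actE F.x⁻¹ (xinv u)) = F.C := by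
    rw [car_act, car_inv, cu, inv_smul_eq_iff]
    exact h.ok.xC.symm
  have f0 : TFst (W 0) := by rw [← hW]; exact fla.2
  have T1 : TFst (W 0).reverse := TLst.rev fls.1
  have T2 : TLst (W 0).reverse := TFst.rev f0
  have T3 : TFst v := by rw [ht1]; exact TFst.app (TFst.act fls.2 _)
  have T4 : TLst v := by rw [ht2]; exact TLst.app (TLst.act fla.1 _)
  have su : xsrc u = p := hside.1.1
  have tu : xsrc (xinv u) = F.x • p := hside.1.2
  have H1 := isH_pl cu hC
  have H2 := isH_pl ((car_inv t).trans ct) hH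
  obtain ⟨key, -, -⟩ := h2pair_ G A B g hg hgeo hι E.hA (W 0).reverse v _ _ _ _ v0 hv T1 T2 T3 T4
    (by rw [xsrc_act, su, tu, inv_smul_smul]) (by rw [cu, cx]) (by rw [car_inv, ct, cζ])
    (by rw [cu, car_inv, ct]; exact h.ok.dCH) H1 H2
  have kk : kndE (actE F.x⁻¹ (xinv u)) = kinv (kndE u) := by rw [kndE_act, kndE_xinv]
  have six : 6 ≤ (W 0).reverse.length + v.length := by
    apply key
    rcases knd_ G A B g hg hgeo hι _ _ _ v0 H1 T1 with A1 | A1
    · exact Or.inr (Or.inr (Or.inl ⟨A1, by rw [kk, isPQ_kinv]; exact A1⟩))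
    · exact Or.inr (Or.inr (Or.inr ⟨A1, by rw [kk, isO_kinv]; exact A1⟩))
  rw [List.length_reverse] at six
  rw [List.length_map, List.length_map] at hvl
  unfold vl
  omega

/-- **case B2**: `b = []`, `a ≠ []` -/
theorem caseB2 (E : Env hg hgeo hι) (h : CV hg hgeo hι F p q γ s b γ' s' a av W I)
    (hk : F.k hg hgeo hι = 0) (hk' : 1 ≤ F.k' hg hgeo hι) (hb : b = []) (ha : a ≠ []) :
    False := by
  obtain ⟨hγ, hCp, hside⟩ := h.k0 hk
  have e1 : s.length = (lobe hg hgeo hι F.x γ s).length := by rw [hγ, lobe_nil]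
  obtain ⟨P3, e3⟩ : ∃ P3, P3 = s.length + (lobe hg hgeo hι F.x' γ' s').length := ⟨_, rfl⟩
  have hb0 : b.length = 0 := by rw [hb]; rfl
  have hs := h.s_ne E hk
  have hspos : s.length ≠ 0 := fun h0 => hs (List.eq_nil_of_length_eq_zero h0)
  have hapos : a.length ≠ 0 := fun h0 => ha (List.eq_nil_of_length_eq_zero h0)
  have tot := h.total E e1 (P2 := s.length) (by rw [hb0]; rfl) e3
  have n2 := h.n2
  have q1 := sum_piece W 0 s.length hspos
  rw [Nat.zero_add] at q1
  have q3 := sum_piece W s.length (lobe hg hgeo hι F.x' γ' s').length (by omega)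
  rw [← e3] at q3
  rw [Finset.Ico_self, Finset.sum_empty, q1, q3, sum_piece W P3 _ hapos] at tot
  obtain ⟨s1, s2⟩ := h.ints E hk
  obtain ⟨j1, j2⟩ := h.inta E ha (P3 := P3) (by rw [e3, hb0, e1]; rfl)
  obtain ⟨i1, i2, i3, i4⟩ := h.int2 E hk' (P2 := s.length) (P3 := P3) (by rw [hb0, ← e1]; rfl) e3
  have l1 := vl_le h.D 0
  have l2 := vl_le h.D s.length
  have l3 := vl_le h.D P3
  have r1 := h.tr E hk
  have a1 : (1 : ℤ) ≤ (a.length : ℤ) := by exact_mod_cast Nat.pos_of_ne_zero hapos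
  have b1 : (1 : ℤ) ≤ (s.length : ℤ) := by exact_mod_cast Nat.pos_of_ne_zero hspos
  -- the inside of the second lobe
  have i5 : vsum W s.length P3 ≤ 1 := by
    rcases h.ok.kls with ⟨c1, c2, c3, c4⟩ | ⟨hc, -, r2, -, -, m2, -⟩
    · by_cases r2 : Rot F.x'
      · exact i1 r2
      · have := i2 r2 c2
        linarith
    · rcases hc with ⟨-, d2, -⟩ | ⟨-, d2, -⟩ | ⟨-, d2, -⟩
      · have := i3 r2 d2 m2
        linarith
      · exact i4 r2 d2 m2
      · have := i3 r2 d2 m2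
        linarith
  rcases h.ok.kls with ⟨c1, c2, c3, c4⟩ | ⟨hc, -, r2, -, m1, m2, m3⟩
  · by_cases h1 : s.length = 1 ∧ a.length = 1
    · by_cases r2 : Rot F.x'
      · exact h.exc E hk hk' hb h1.1 h1.2 r2
      · obtain ⟨u, hu⟩ := List.length_eq_one_iff.1 h1.1
        obtain ⟨t, ht⟩ := List.length_eq_one_iff.1 h1.2
        have key := h.threeB E hk hk' hb hu ht c1 c3 (P3 := P3) (by rw [e3, h1.1])
        have := i2 r2 c2
        have k1 := s1 c1
        have k2 := j1 c3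
        rw [h1.1] at k1 tot this
        rw [h1.2] at k2 tot
        push_cast at k1 k2
        linarith
    · have k1 := s1 c1
      have k2 := j1 c3
      have : (3 : ℤ) ≤ (s.length : ℤ) + (a.length : ℤ) := by omega
      linarith
  · -- the class Lt
    have h2s : 2 ≤ s.length := m1 p s hside
    have h2a : 2 ≤ a.length := by
      by_contra hlt
      have h1 : a.length = 1 := by omega
      obtain ⟨t, ht⟩ := List.length_eq_one_iff.1 h1
      have hside' := h.po.ha
      have hbs := h.po.hb.1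
      rw [hb] at hbs
      have hq : F.x • p = q := hbs
      rw [ht, ← hq, ← mul_smul] at hside'
      exact NTwo.no' m3 hside'
    have z1 : (2 : ℤ) ≤ (s.length : ℤ) := by exact_mod_cast h2s
    have z2 : (2 : ℤ) ≤ (a.length : ℤ) := by exact_mod_cast h2a
    rcases hc with ⟨d1, -, d3⟩ | ⟨d1, -, d3⟩ | ⟨d1, -, d3⟩
    · have := j1 d3
      linarith
    · have := j1 d3
      linarith
    · have := s1 d1
      linarith

/-- **case B1**: `a, b ≠ []` -/
theorem caseB1 (E : Env hg hgeo hι) (h : CV hg hgeo hι F p q γ s b γ' s' a av W I)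
    (hk : F.k hg hgeo hι = 0) (hk' : 1 ≤ F.k' hg hgeo hι) (hb : b ≠ []) (ha : a ≠ []) :
    False := by
  obtain ⟨hγ, hCp, hside⟩ := h.k0 hk
  have e1 : s.length = (lobe hg hgeo hι F.x γ s).length := by rw [hγ, lobe_nil]
  obtain ⟨P2, e2⟩ : ∃ P2, P2 = s.length + b.length := ⟨_, rfl⟩
  obtain ⟨P3, e3⟩ : ∃ P3, P3 = P2 + (lobe hg hgeo hι F.x' γ' s').length := ⟨_, rfl⟩
  have hapos : a.length ≠ 0 := fun h0 => ha (List.eq_nil_of_length_eq_zero h0)
  have hbpos : b.length ≠ 0 := fun h0 => hb (List.eq_nil_of_length_eq_zero h0)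
  have tot := h.total E e1 e2 e3
  have n2 := h.n2
  have q2 := sum_piece W s.length _ hbpos
  rw [← e2] at q2
  have q3 := sum_piece W P2 (lobe hg hgeo hι F.x' γ' s').length (by omega)
  rw [← e3] at q3
  rw [q2, q3, sum_piece W P3 _ hapos] at tot
  obtain ⟨t1, t2⟩ := h.touch E hk ha hb
  have j1 := (h.inta E ha (P3 := P3) (by rw [e3, e2, e1])).2
  have j2 := (h.intb E hb e1 e2).2
  have at2 := h.attach E hk' hb ha (P2 := P2) (by rw [e2, e1]) e3
  obtain ⟨i1, i2, i3, i4⟩ := h.int2 E hk' (P2 := P2) (P3 := P3) (by rw [e2, e1]) e3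
  have a1 : (1 : ℤ) ≤ (a.length : ℤ) := by exact_mod_cast Nat.pos_of_ne_zero hapos
  have b1 : (1 : ℤ) ≤ (b.length : ℤ) := by exact_mod_cast Nat.pos_of_ne_zero hbpos
  rcases h.ok.kls with ⟨c1, c2, c3, c4⟩ | ⟨hc, -, r2, -, m1, m2, m3⟩
  · have := t2 c1
    by_cases r2 : Rot F.x'
    · have := i1 r2
      linarith
    · have := i2 r2 c2
      linarith
  · rcases hc with ⟨d1, d2, d3⟩ | ⟨d1, d2, d3⟩ | ⟨d1, d2, d3⟩
    · have := i3 r2 d2 m2
      linarith
    · have := i4 r2 d2 m2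
      have := t2 d1
      linarith
    · have := i3 r2 d2 m2
      linarith

/-- **case B4**: `a = b = []` -/
theorem caseB4 (E : Env hg hgeo hι) (h : CV hg hgeo hι F p q γ s b γ' s' a av W I)
    (hk : F.k hg hgeo hι = 0) (hk' : 1 ≤ F.k' hg hgeo hι) (hb : b = []) (ha : a = []) :
    False := by
  obtain ⟨hγ, hCp, hside⟩ := h.k0 hk
  have e1 : s.length = (lobe hg hgeo hι F.x γ s).length := by rw [hγ, lobe_nil]
  obtain ⟨P3, e3⟩ : ∃ P3, P3 = s.length + (lobe hg hgeo hι F.x' γ' s').length := ⟨_, rfl⟩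
  have hb0 : b.length = 0 := by rw [hb]; rfl
  have ha0 : a.length = 0 := by rw [ha]; rfl
  have hs := h.s_ne E hk
  have hspos : s.length ≠ 0 := fun h0 => hs (List.eq_nil_of_length_eq_zero h0)
  have tot := h.total E e1 (P2 := s.length) (by rw [hb0]; rfl) e3
  have n2 := h.n2
  have q1 := sum_piece W 0 s.length hspos
  rw [Nat.zero_add] at q1
  have q3 := sum_piece W s.length (lobe hg hgeo hι F.x' γ' s').length (by omega)
  rw [← e3] at q3
  rw [Finset.Ico_self, Finset.sum_empty, q1, q3, ha0, Nat.add_zero, Finset.Ico_self,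
    Finset.sum_empty] at tot
  have s2 := (h.ints E hk).2
  obtain ⟨i1, i2, i3, i4⟩ := h.int2 E hk' (P2 := s.length) (P3 := P3) (by rw [hb0, ← e1]; rfl) e3
  have l1 := vl_le h.D 0
  have l2 := vl_le h.D s.length
  obtain ⟨r1, r2, -, c2⟩ := h.nil2 E hb ha
  have := i2 r2 c2
  have b1 : (1 : ℤ) ≤ (s.length : ℤ) := by exact_mod_cast Nat.pos_of_ne_zero hspos
  linarith

end CV

/-! ## existence of the disc, and the end -/

section fin

variable {F : Fr A B g} {p q : XV A B g} {γ s b γ' s' a : List (XE A B g)}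

theorem s_ne0 (E : Env hg hgeo hι) (hF : F.Ok hg hgeo hι)
    (hP : F.Poly hg hgeo hι p q γ s b γ' s' a) (hk : F.k hg hgeo hι = 0) : s ≠ [] := by
  rintro rfl
  have h0 := hP.l1.len
  rw [hk] at h0
  have hγ : γ = [] := List.eq_nil_of_length_eq_zero h0
  subst hγ
  have h1 := hP.l1.path
  rw [CV.lobe_nil] at h1
  have h2 : p = F.x • p := h1
  have h3 : On F.H' (F.x • p) := by
    rw [← hF.xH]
    exact hP.hp.smul _
  rw [← h2] at h3
  exact hF.disjH E.hA E.M E.hSC E.hQ E.hS p hP.hp h3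

/-- the disc exists -/
theorem exists_CV (E : Env hg hgeo hι) (hF : F.Ok hg hgeo hι)
    (hP : F.Poly hg hgeo hι p q γ s b γ' s' a) (hM : F.Mini hg hgeo hι γ s b γ' s' a)
    (hkk : 1 ≤ F.k' hg hgeo hι) : ∃ av W I, CV hg hgeo hι F p q γ s b γ' s' a av W I := by
  have hlen : 3 ≤ (F.word hg hgeo hι γ s b γ' s' a).length := by
    have h1 : (F.word hg hgeo hι γ s b γ' s' a).length =
        (γ.length + s.length + γ.length) + b.length + (γ'.length + s'.length + γ'.length) +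
          a.length := by
      unfold Fr.word
      rw [List.length_append, List.length_append, List.length_append, lobe_len, lobe_len]
    have h2 := hP.l1.len
    have h3 := hP.l2.len
    rcases Nat.eq_zero_or_pos (F.k hg hgeo hι) with h4 | h4
    · have h5 := s_ne0 E hF hP h4
      have h6 := List.length_pos_iff.2 h5
      omega
    · omega
  have hPF := cv_pf E.hA E.M E.hSC E.hQ E.hS E.hfix hF hP hM
  obtain ⟨av, W, I, hD⟩ := exists_DW _ _ (XX hg hgeo hι) E.M E.hSC _ hP.cl hPF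
    (by
      intro h0
      rw [h0] at hlen
      simp at hlen)
    (by
      intro e h0
      rw [h0] at hlen
      simp at hlen)
  exact ⟨av, W, I, hF, hP, hM, hD⟩

/-- **case B**: only the second lobe has a slit -/
theorem caseB (E : Env hg hgeo hι) (hF : F.Ok hg hgeo hι)
    (hP : F.Poly hg hgeo hι p q γ s b γ' s' a) (hM : F.Mini hg hgeo hι γ s b γ' s' a)
    (hk : F.k hg hgeo hι = 0) (hk' : 1 ≤ F.k' hg hgeo hι) : False := by
  obtain ⟨av, W, I, h⟩ := exists_CV E hF hP hM hk'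
  by_cases hb : b = []
  · by_cases ha : a = []
    · exact h.caseB4 E hk hk' hb ha
    · exact h.caseB2 E hk hk' hb ha
  · by_cases ha : a = []
    · have hk2' : 1 ≤ F.mi.k' hg hgeo hι := by rw [hF.mi_k']; exact hk'
      obtain ⟨av', W', I', h'⟩ := exists_CV E hF.mi (hP.mi hF) (hM.mi E.M E.hSC hF hP) hk2'
      refine h'.caseB2 E (by rw [hF.mi_k]; exact hk) hk2' ?_ ?_
      · rw [ha]; rfl
      · intro h0
        apply hb
        have h1 := congrArg (XX hg hgeo hι).rv h0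
        rwa [rv_rv, rv_nil] at h1
    · exact h.caseB1 E hk hk' hb ha

/-- **the count**: there is no frame in case V -/
theorem cvc (E : Env hg hgeo hι) (hF : F.Ok hg hgeo hι) : False := by
  obtain ⟨p, q, γ, s, b, γ', s', a, hP, hM⟩ := Fr.exists_mini E.hfix hF
  rcases Nat.eq_zero_or_pos (F.k hg hgeo hι) with h1 | h1
  · rcases Nat.eq_zero_or_pos (F.k' hg hgeo hι) with h2 | h2
    · exact H50.caseC E.hA E.M E.hSC E.hQ E.hS E.hfix hF hP hM h1 h2
    · exact caseB E hF hP hM h1 h2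
  · rcases Nat.eq_zero_or_pos (F.k' hg hgeo hι) with h2 | h2
    · exact caseB E hF.ex hP.ex (hM.ex E.M E.hSC hP) (by rw [hF.ex_k]; exact h2)
        (by rw [hF.ex_k']; exact h1)
    · obtain ⟨av, W, I, h⟩ := exists_CV E hF hP hM h2
      exact h.caseA E h1 h2

end fin

end Pool.Agent.ABA.B.H88C
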