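import Pool.Agent.Helper88_ABB.Rot
import Pool.Agent.Helper50_ABB.CvPF
import Pool.Agent.Helper70_ABA.LobeInt
import Pool.Agent.Helper17_ABA.Lobe3
import Pool.Agent.Helper70_ABA.Exc2
import Pool.Agent.Helper49_ABB.Walk

/-!
# Case V: the count, set-up (MP_d857f1_al, part B, section 7)

`CV`: a minimal two-lobe polygon with the data of its minimal disc. Positions: `0` (at `p`),
`P1 = |lobe 1|` (at `x p`), `P2 = P1 + |b|` (at `q`), `P3 = P2 + |lobe 2|` (at `x' q`),
`N = P3 + |a|`.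
-/

set_option autoImplicit false

namespace Pool.Agent.ABA.B.H88C

open Knd Pool.Agent.ABA Pool.Agent.ABA.B Pool.Agent.ABA.B.TG Pool.Agent.ABA.B.H17
  Pool.Agent.ABA.B.H49 Pool.Agent.ABA.B.H50 Pool.Agent.ABA.B.H70L

variable {G : Type} [Group G] {A B : Subgroup G} {g : G}

/-- the standing hypotheses -/
structure Env (hg : ¬ IsABA A B g) (hgeo : Geo A B) (hι : Function.Injective (Pι A B g)) :
    Prop where
  hA : ∀ x ∈ A, ∀ y ∈ A, x * y = y * x
  M : Mods
  hSC : (XX hg hgeo hι).SC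
  hQ : Q1Stmt hg hgeo hι

/-- a minimal two-lobe polygon with the data of its minimal disc -/
structure CV (hg : ¬ IsABA A B g) (hgeo : Geo A B) (hι : Function.Injective (Pι A B g))
    (F : Fr A B g) (p q : XV A B g) (γ s b γ' s' a : List (XE A B g)) (av : ℕ → XE A B g)
    (W : ℕ → List (XE A B g)) (I : List (List (XE A B g))) : Prop where
  ok : F.Ok hg hgeo hι
  po : F.Poly hg hgeo hι p q γ s b γ' s' a
  mi : F.Mini hg hgeo hι γ s b γ' s' a
  D : DW (XX hg hgeo hι) (F.word hg hgeo hι γ s b γ' s' a) av W I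

variable {hg : ¬ IsABA A B g} {hgeo : Geo A B} {hι : Function.Injective (Pι A B g)}

theorem Env.hS (E : Env hg hgeo hι) : StabStmt A B g := stab_stmt E.M E.hSC E.hA
theorem Env.hfix (E : Env hg hgeo hι) : FixStmt A B g := fix_stmt E.M E.hSC E.hA

/-! ## total value -/

theorem sumZ_shift {N : ℕ} {f : ℕ → ℤ} (hf : f N = f 0) :
    ∑ i ∈ Finset.range N, f (i + 1) = ∑ i ∈ Finset.range N, f i := by
  have h1 := Finset.sum_range_succ f N
  have h2 := Finset.sum_range_succ' f N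
  rw [h1, hf] at h2
  linarith

/-- the total value is at least six -/
theorem DW.six (hA : ∀ x ∈ A, ∀ y ∈ A, x * y = y * x) {w : List (XE A B g)}
    {av : ℕ → XE A B g} {W : ℕ → List (XE A B g)} {I : List (List (XE A B g))}
    (h : DW (XX hg hgeo hι) w av W I) : 6 ≤ ∑ i ∈ Finset.range w.length, vl W i := by
  have h1 := six_le h.bd (hsysX hA)
  have h2 : W w.length = W 0 := by
    have := h.bd.perW 0
    rwa [Nat.zero_add] at this
  rw [sumZ_shift (f := fun i => 4 - ((W i).length : ℤ)) (by simp only [h2])] at h1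
  exact h1

theorem vl_le {w : List (XE A B g)} {av : ℕ → XE A B g} {W : ℕ → List (XE A B g)}
    {I : List (List (XE A B g))} (h : DW (XX hg hgeo hι) w av W I) (i : ℕ) : vl W i ≤ 2 := by
  have h1 := h.two i
  unfold vl
  have : (2 : ℤ) ≤ ((W i).length : ℤ) := by exact_mod_cast h1
  linarith

/-- the sum over a nonempty piece -/
theorem sum_piece (W : ℕ → List (XE A B g)) (u n : ℕ) (hn : n ≠ 0) :
    ∑ i ∈ Finset.Ico u (u + n), vl W i = vl W u + vsum W u (u + n) := by
  unfold vsum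
  rw [Finset.sum_eq_sum_Ico_succ_bot (by omega)]

/-! ## the pieces -/

namespace CV

variable {F : Fr A B g} {p q : XV A B g} {γ s b γ' s' a : List (XE A B g)}
  {av : ℕ → XE A B g} {W : ℕ → List (XE A B g)} {I : List (List (XE A B g))}

/-- length of the first lobe -/
theorem n1 (h : CV hg hgeo hι F p q γ s b γ' s' a av W I) :
    (lobe hg hgeo hι F.x γ s).length = 2 * F.k hg hgeo hι + s.length := by
  rw [lobe_len, h.po.l1.len]
  ring

/-- length of the second lobe -/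
theorem n2 (h : CV hg hgeo hι F p q γ s b γ' s' a av W I) :
    (lobe hg hgeo hι F.x' γ' s').length = 2 * F.k' hg hgeo hι + s'.length := by
  rw [lobe_len, h.po.l2.len]
  ring

theorem cl (h : CV hg hgeo hι F p q γ s b γ' s' a av W I) :
    (XX hg hgeo hι).Cl (F.word hg hgeo hι γ s b γ' s' a) := h.po.cl

/-- the hub carriers are disjoint -/
theorem dH (E : Env hg hgeo hι) (h : CV hg hgeo hι F p q γ s b γ' s' a av W I)
    (n : XV A B g) (h1 : On F.H n) (h2 : On F.H' n) : False :=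
  h.ok.disjH E.hA E.M E.hSC E.hQ E.hS n h1 h2

/-- the lobe carriers are disjoint -/
theorem dC (E : Env hg hgeo hι) (h : CV hg hgeo hι F p q γ s b γ' s' a av W I)
    (n : XV A B g) (h1 : On F.C n) (h2 : On F.C' n) : False :=
  h.ok.disjC E.hA E.M E.hSC E.hS n h1 h2

/-- **rotation**: exchange of the two lobes -/
theorem ex (E : Env hg hgeo hι) (h : CV hg hgeo hι F p q γ s b γ' s' a av W I) :
    CV hg hgeo hι F.ex q p γ' s' a γ s b
      (fun i => av (i + ((lobe hg hgeo hι F.x γ s).length + b.length)))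
      (fun i => W (i + ((lobe hg hgeo hι F.x γ s).length + b.length))) I where
  ok := h.ok.ex
  po := h.po.ex
  mi := h.mi.ex E.M E.hSC h.po
  D := by
    have h1 := H88R.DW.rot E.M E.hSC (u := lobe hg hgeo hι F.x γ s ++ b)
      (v := lobe hg hgeo hι F.x' γ' s' ++ a) (by simp [Fr.word]) h.cl h.D
    rw [List.length_append] at h1
    have e : F.ex.word hg hgeo hι γ' s' a γ s b =
        lobe hg hgeo hι F.x' γ' s' ++ a ++ (lobe hg hgeo hι F.x γ s ++ b) := by
      simp [Fr.word, Fr.ex]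
    rw [e]
    exact h1

/-! ## minimality of the pieces -/

theorem lm1 (h : CV hg hgeo hι F p q γ s b γ' s' a av W I) :
    LobeMin hg hgeo hι F.C F.x p (F.k hg hgeo hι) [] γ s
      (b ++ lobe hg hgeo hι F.x' γ' s' ++ a) where
  lob := h.po.l1
  dist := by
    unfold Fr.k
    rw [dCC_comm]
    exact dCC_le_dVC h.po.hp
  stab := h.ok.xC
  ne := h.ok.x1
  min := by
    intro γ1 s1 hl
    have h1 := h.mi p q γ1 s1 b γ' s' a
      ⟨h.po.hp, h.po.hq, hl, h.po.l2, h.po.hb, h.po.ha⟩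
    unfold Fr.area Fr.word at h1
    simp only [List.append_assoc, List.nil_append] at h1 ⊢
    exact ⟨h1.1, fun h2 => by have := h1.2 h2; omega⟩

theorem lm2 (h : CV hg hgeo hι F p q γ s b γ' s' a av W I) :
    LobeMin hg hgeo hι F.C' F.x' q (F.k' hg hgeo hι) (lobe hg hgeo hι F.x γ s ++ b) γ' s' a where
  lob := h.po.l2
  dist := by
    unfold Fr.k'
    rw [dCC_comm]
    exact dCC_le_dVC h.po.hq
  stab := h.ok.xC'
  ne := h.ok.x1'
  min := by
    intro γ1 s1 hl
    have h1 := h.mi p q γ s b γ1 s1 a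
      ⟨h.po.hp, h.po.hq, h.po.l1, hl, h.po.hb, h.po.ha⟩
    unfold Fr.area Fr.word at h1
    exact ⟨h1.1, fun h2 => by have := h1.2 h2; omega⟩

theorem fmb (h : CV hg hgeo hι F p q γ s b γ' s' a av W I) :
    FlatMin hg hgeo hι F.H' (F.x • p) q (lobe hg hgeo hι F.x γ s) b
      (lobe hg hgeo hι F.x' γ' s' ++ a) where
  side := h.po.hb
  min := by
    intro b1 hb1
    have h1 := h.mi p q γ s b1 γ' s' a
      ⟨h.po.hp, h.po.hq, h.po.l1, h.po.l2, hb1, h.po.ha⟩
    unfold Fr.area Fr.word at h1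
    simp only [List.append_assoc] at h1 ⊢
    exact ⟨h1.1, fun h2 => by have := h1.2 h2; omega⟩

theorem fma (h : CV hg hgeo hι F p q γ s b γ' s' a av W I) :
    FlatMin hg hgeo hι F.H (F.x' • q) p
      (lobe hg hgeo hι F.x γ s ++ b ++ lobe hg hgeo hι F.x' γ' s') a [] where
  side := h.po.ha
  min := by
    intro a1 ha1
    have h1 := h.mi p q γ s b γ' s' a1
      ⟨h.po.hp, h.po.hq, h.po.l1, h.po.l2, h.po.hb, ha1⟩
    unfold Fr.area Fr.word at h1
    simp only [List.append_nil] at h1 ⊢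
    exact ⟨h1.1, fun h2 => by have := h1.2 h2; omega⟩

/-! ## no slit -/

theorem k0 (h : CV hg hgeo hι F p q γ s b γ' s' a av W I) (hk : F.k hg hgeo hι = 0) :
    γ = [] ∧ On F.C p ∧ SideP hg hgeo hι F.C p (F.x • p) s := by
  have h0 := h.po.l1.len
  rw [hk] at h0
  have hγ : γ = [] := List.eq_nil_of_length_eq_zero h0
  obtain ⟨y, h1, h2, h3⟩ := h.po.l1.mid
  rw [hγ] at h2
  have h4 : p = y := h2
  rw [← h4] at h1 h3
  exact ⟨hγ, h1, h3⟩

theorem k0' (h : CV hg hgeo hι F p q γ s b γ' s' a av W I) (hk : F.k' hg hgeo hι = 0) :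
    γ' = [] ∧ On F.C' q ∧ SideP hg hgeo hι F.C' q (F.x' • q) s' := by
  have h0 := h.po.l2.len
  rw [hk] at h0
  have hγ : γ' = [] := List.eq_nil_of_length_eq_zero h0
  obtain ⟨y, h1, h2, h3⟩ := h.po.l2.mid
  rw [hγ] at h2
  have h4 : q = y := h2
  rw [← h4] at h1 h3
  exact ⟨hγ, h1, h3⟩

/-- without slit, `x` is a translation -/
theorem tr (E : Env hg hgeo hι) (h : CV hg hgeo hι F p q γ s b γ' s' a av W I)
    (hk : F.k hg hgeo hι = 0) : ¬ Rot F.x := by
  intro hr
  have h1 := ((E.hfix F.C F.x h.ok.x1 h.ok.xC).1 hr p).2 (h.k0 hk).2.1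
  have h2 : On F.H' (F.x • p) := by
    rw [← h.ok.xH]
    exact h.po.hp.smul _
  rw [h1] at h2
  exact h.dH E p h.po.hp h2

theorem tr' (E : Env hg hgeo hι) (h : CV hg hgeo hι F p q γ s b γ' s' a av W I)
    (hk : F.k' hg hgeo hι = 0) : ¬ Rot F.x' := by
  intro hr
  have h1 := ((E.hfix F.C' F.x' h.ok.x1' h.ok.xC').1 hr q).2 (h.k0' hk).2.1
  have h2 : On F.H (F.x' • q) := by
    rw [← h.ok.xH']
    exact h.po.hq.smul _
  rw [h1] at h2
  exact h.dH E q h2 h.po.hq

/-- a flat lobe is not trivial -/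
theorem s_ne (E : Env hg hgeo hι) (h : CV hg hgeo hι F p q γ s b γ' s' a av W I)
    (hk : F.k hg hgeo hι = 0) : s ≠ [] := by
  rintro rfl
  have h1 := (h.k0 hk).2.2
  have h2 : p = F.x • p := h1.1
  exact (E.hfix F.C F.x h.ok.x1 h.ok.xC).2 (h.tr E hk) p h2.symm

theorem s_ne' (E : Env hg hgeo hι) (h : CV hg hgeo hι F p q γ s b γ' s' a av W I)
    (hk : F.k' hg hgeo hι = 0) : s' ≠ [] := by
  rintro rfl
  have h1 := (h.k0' hk).2.2
  have h2 : q = F.x' • q := h1.1
  exact (E.hfix F.C' F.x' h.ok.x1' h.ok.xC').2 (h.tr' E hk) q h2.symm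

/-- minimality of a flat lobe -/
theorem fms (E : Env hg hgeo hι) (h : CV hg hgeo hι F p q γ s b γ' s' a av W I)
    (hk : F.k hg hgeo hι = 0) :
    FlatMin hg hgeo hι F.C p (F.x • p) [] s (b ++ lobe hg hgeo hι F.x' γ' s' ++ a) := by
  obtain ⟨y, h1, h2, h3⟩ := lobeFlat_ _ _ _ _ _ _ _ _ h.lm1 (h.tr E hk)
  obtain ⟨h4, -, -⟩ := h.k0 hk
  subst h4
  have h5 : p = y := h2
  subst h5
  simpa using h3

theorem fms' (E : Env hg hgeo hι) (h : CV hg hgeo hι F p q γ s b γ' s' a av W I)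
    (hk : F.k' hg hgeo hι = 0) :
    FlatMin hg hgeo hι F.C' q (F.x' • q) (lobe hg hgeo hι F.x γ s ++ b) s' a := by
  obtain ⟨y, h1, h2, h3⟩ := lobeFlat_ _ _ _ _ _ _ _ _ h.lm2 (h.tr' E hk)
  obtain ⟨h4, -, -⟩ := h.k0' hk
  subst h4
  have h5 : q = y := h2
  subst h5
  simpa using h3

theorem lobe_nil (z : PP A B g) (s : List (XE A B g)) : lobe hg hgeo hι z [] s = s := by
  simp [lobe]

/-! ## the total -/

/-- the total value as the sum over the four pieces -/
theorem total (E : Env hg hgeo hι) (h : CV hg hgeo hι F p q γ s b γ' s' a av W I) {P1 P2 P3 : ℕ}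
    (e1 : P1 = (lobe hg hgeo hι F.x γ s).length) (e2 : P2 = P1 + b.length)
    (e3 : P3 = P2 + (lobe hg hgeo hι F.x' γ' s').length) :
    6 ≤ ∑ i ∈ Finset.Ico 0 P1, vl W i + ∑ i ∈ Finset.Ico P1 P2, vl W i +
      ∑ i ∈ Finset.Ico P2 P3, vl W i + ∑ i ∈ Finset.Ico P3 (P3 + a.length), vl W i := by
  have h1 := DW.six E.hA h.D
  have hN : (F.word hg hgeo hι γ s b γ' s' a).length = P3 + a.length := by
    rw [e3, e2, e1]
    simp [Fr.word, add_assoc]
  rw [hN, Finset.range_eq_Ico] at h1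
  rw [Finset.sum_Ico_consecutive _ (by omega) (by omega),
    Finset.sum_Ico_consecutive _ (by omega) (by omega),
    Finset.sum_Ico_consecutive _ (by omega) (by omega)]
  exact h1

end CV

end Pool.Agent.ABA.B.H88C
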