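import Pool.Agent.Helper17_ABA.LobeDefs

/-!
# Rotated boundary data (MP_d857f1_al, part B)

The disc data `DW` of a closed word `u ++ v` give the disc data of `v ++ u`.
-/

set_option autoImplicit false

namespace Pool.Agent.ABA.B.H88R

open Pool.Agent.ABA.B Pool.Agent.ABA.B.TG Pool.Agent.ABA.B.H17

section gen

variable {V E : Type} {S : TG V E}

theorem rp_shift {F F' : ℕ → E × E} {μ μ' : ℕ → Bool} : ∀ {w : List E} {k k' : ℕ},
    (∀ i < w.length, F (k + i) = F' (k' + i) ∧ μ (k + i) = μ' (k' + i)) →
      rp F μ k w = rp F' μ' k' w ∧ ct μ k w.length = ct μ' k' w.length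
  | [], _, _, _ => ⟨rfl, rfl⟩
  | e :: w, k, k', h => by
    have h0 := h 0 (by simp)
    rw [Nat.add_zero, Nat.add_zero] at h0
    obtain ⟨h1, h2⟩ := rp_shift (w := w) (k := k + 1) (k' := k' + 1) (by
      intro i hi
      have := h (i + 1) (by simpa using hi)
      rwa [show k + (i + 1) = k + 1 + i by ring, show k' + (i + 1) = k' + 1 + i by ring] at this)
    refine ⟨?_, ?_⟩
    · rw [rp, rp, h1, h0.1, h0.2]
    · rw [List.length_cons, ct, ct, h2, h0.2]

theorem rp_isP {F : ℕ → E × E} {μ : ℕ → Bool} : ∀ {w : List E} {k : ℕ} {x y : V}, S.IsP x w y →
    (∀ i (h : i < w.length), μ (k + i) = true → S.Tri w[i] (F (k + i)).1 (F (k + i)).2) →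
      S.IsP x (rp F μ k w) y
  | [], _, _, _, h, _ => h
  | e :: w, k, x, y, h, hT => by
    have h1 : S.IsP (S.tgt e) (rp F μ (k + 1) w) y := by
      refine rp_isP h.2 ?_
      intro i hi hm
      have := hT (i + 1) (by simpa using hi) (by rwa [show k + (i + 1) = k + 1 + i by ring])
      rw [show k + (i + 1) = k + 1 + i by ring] at this
      exact this
    rw [rp, isP_append]
    refine ⟨S.tgt e, ?_, h1⟩
    by_cases hm : μ k = true
    · rw [if_pos hm]
      have h2 : S.Tri e (F k).1 (F k).2 := hT 0 (by simp) (by rwa [Nat.add_zero])
      refine ⟨?_, ?_, ?_⟩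
      · rw [← h.1]; exact S.tri_src h2
      · exact S.tri_mid h2
      · exact S.tri_tgt h2
    · rw [if_neg hm]
      exact ⟨h.1, rfl⟩

theorem sum_shift {N : ℕ} {f : ℕ → ℝ} (hf : ∀ i, f (i + N) = f i) (m : ℕ) :
    ∑ i ∈ Finset.range N, f (i + m) = ∑ i ∈ Finset.range N, f i := by
  induction m with
  | zero => rfl
  | succ m ih =>
    rw [← ih]
    have h1 := Finset.sum_range_succ (fun i => f (i + m)) N
    have h2 := Finset.sum_range_succ' (fun i => f (i + m)) N
    rw [h1] at h2
    have h3 : f (N + m) = f (0 + m) := by
      rw [add_comm N m, zero_add]
      exact hf m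
    have h4 : ∀ i, f (i + (m + 1)) = f (i + 1 + m) := by
      intro i
      rw [show i + (m + 1) = i + 1 + m by ring]
    simp only [h4]
    linarith

theorem Bd.rot {N : ℕ} {a : ℕ → E} {W : ℕ → List E} {I : List (List E)} (h : Bd S N a W I)
    (m : ℕ) : Bd S N (fun i => a (i + m)) (fun i => W (i + m)) I where
  per i := by
    show a (i + N + m) = a (i + m)
    rw [show i + N + m = i + m + N by ring]
    exact h.per _
  perW i := by
    show W (i + N + m) = W (i + m)
    rw [show i + N + m = i + m + N by ring]
    exact h.perW _
  path i := by
    show S.src (a (i + 1 + m)) = S.tgt (a (i + m))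
    rw [show i + 1 + m = i + m + 1 by ring]
    exact h.path _
  edg i := by
    show ∃ f1 f2 l r, S.Tri (a (i + m)) f1 f2 ∧ W (i + m) = l ++ [f1, a (i + m)] ∧
      W (i + 1 + m) = S.inv (a (i + m)) :: S.inv f2 :: r
    rw [show i + 1 + m = i + m + 1 by ring]
    exact h.edg _
  chain i := h.chain _
  red i := h.red _
  inner := h.inner
  gb θ hθ := by
    have h1 := h.gb θ hθ
    rw [← sum_shift (f := fun i => 3 - ow θ (W i)) (fun i => by rw [h.perW]) m] at h1
    exact h1

/-- the area of a closed word does not depend on the starting point -/
theorem ar_rotg (M : Mods) (hSC : S.SC) {u v : List E} (h : S.Cl (u ++ v)) :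
    S.ar (u ++ v) = S.ar (v ++ u) := (M.area _ _ _ hSC).2.2.1 u v h

theorem Cl_rotg {u v : List E} (h : S.Cl (u ++ v)) : S.Cl (v ++ u) := by
  obtain ⟨x, h⟩ := h
  obtain ⟨y, h1, h2⟩ := isP_append.1 h
  exact ⟨y, isP_append.2 ⟨x, h2, h1⟩⟩

theorem Cl.cut {u v w : List E} (h : S.Cl (u ++ v ++ w)) : S.Cl (v ++ (w ++ u)) := by
  have := Cl_rotg (u := u) (v := v ++ w) (by rwa [← List.append_assoc])
  rwa [List.append_assoc] at this

/-- replacing a letter by the two other sides of a triangle -/
theorem Cl.tri {l r : List E} {e f1 f2 : E} (h : S.Cl (l ++ e :: r)) (ht : S.Tri e f1 f2) :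
    S.Cl (l ++ f1 :: f2 :: r) := by
  obtain ⟨x, h⟩ := h
  obtain ⟨y, h1, h2, h3⟩ := isP_append.1 h
  refine ⟨x, isP_append.2 ⟨y, h1, ?_, ?_, ?_⟩⟩
  · rw [← h2]; exact S.tri_src ht
  · exact S.tri_mid ht
  · have := S.tri_tgt ht
    change S.tgt f2 = S.tgt e at this
    rwa [this]

/-- **rotation of the disc** -/
theorem DW.rot (M : Mods) (hSC : S.SC) {u v w : List E} {a : ℕ → E} {W : ℕ → List E}
    {I : List (List E)} (hw : w = u ++ v) (hcl : S.Cl w) (h : DW S w a W I) :
    DW S (v ++ u) (fun i => a (i + u.length)) (fun i => W (i + u.length)) I := by
  subst hw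
  have hlen : (v ++ u).length = (u ++ v).length := by
    rw [List.length_append, List.length_append, add_comm]
  have hN : (u ++ v).length = u.length + v.length := List.length_append
  -- the letters
  have hget : ∀ i (hi : i < (v ++ u).length), a (i + u.length) = (v ++ u)[i] := by
    intro i hi
    rcases Nat.lt_or_ge i v.length with h1 | h1
    · rw [List.getElem_append_left h1]
      have h2 := h.get (i + u.length) (by rw [hN]; omega)
      rw [h2, List.getElem_append_right (by omega)]
      simp only [Nat.add_sub_cancel]
    · rw [List.getElem_append_right h1]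
      have h3 : i < v.length + u.length := by rwa [List.length_append] at hi
      have h2 := h.bd.per (i - v.length)
      rw [hN, show i - v.length + (u.length + v.length) = i + u.length by omega] at h2
      rw [h2, h.get _ (by rw [hN]; omega), List.getElem_append_left (by omega)]
  refine ⟨?_, hget, ?_, ?_⟩
  · rw [hlen]
    exact Bd.rot h.bd _
  · -- single triangles
    intro i hi f1 f2 l hT hW
    have h3 : i < v.length + u.length := by rwa [List.length_append] at hi
    rcases Nat.lt_or_ge i v.length with h1 | h1
    · have hv : v = v.take i ++ v[i] :: v.drop (i + 1) := by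
        conv_lhs => rw [← List.take_append_drop i v, List.drop_eq_getElem_cons h1]
      rw [List.getElem_append_left h1] at hT hW
      have e1 : (v ++ u).take i ++ f1 :: f2 :: (v ++ u).drop (i + 1) =
          (v.take i ++ f1 :: f2 :: v.drop (i + 1)) ++ u := by
        rw [List.take_append_of_le_length h1.le, List.drop_append_of_le_length (by omega)]
        simp
      have h2 : i + u.length < (u ++ v).length := by rw [hN]; omega
      have e2 : (u ++ v)[i + u.length] = v[i] := by
        rw [List.getElem_append_right (by omega)]
        simp only [Nat.add_sub_cancel]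
      have h4 := h.red (i + u.length) h2 f1 f2 l (by rwa [e2]) (by rwa [e2])
      have e3 : (u ++ v).take (i + u.length) ++ f1 :: f2 :: (u ++ v).drop (i + u.length + 1) =
          u ++ (v.take i ++ f1 :: f2 :: v.drop (i + 1)) := by
        rw [add_comm i, List.take_length_add_append, add_assoc, List.drop_length_add_append]
        simp
      rw [e3, ar_rotg M hSC (u := u) (v := v.take i ++ f1 :: f2 :: v.drop (i + 1)) (by
        have := hcl
        rw [hv, ← List.append_assoc] at this
        have := Cl.tri this hT
        rwa [List.append_assoc] at this), ar_rotg M hSC hcl] at h4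
      rw [e1]
      exact h4
    · have hiu : i - v.length < u.length := by omega
      have hu : u = u.take (i - v.length) ++ u[i - v.length] :: u.drop (i - v.length + 1) := by
        conv_lhs => rw [← List.take_append_drop (i - v.length) u, List.drop_eq_getElem_cons hiu]
      rw [List.getElem_append_right h1] at hT hW
      have e1 : (v ++ u).take i ++ f1 :: f2 :: (v ++ u).drop (i + 1) =
          v ++ (u.take (i - v.length) ++ f1 :: f2 :: u.drop (i - v.length + 1)) := by
        obtain ⟨j, rfl⟩ : ∃ j, i = v.length + j := ⟨i - v.length, by omega⟩
        rw [List.take_length_add_append, add_assoc, List.drop_length_add_append]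
        simp
      have h2 : i - v.length < (u ++ v).length := by rw [hN]; omega
      have e2 : (u ++ v)[i - v.length] = u[i - v.length] := by
        rw [List.getElem_append_left hiu]
      have hWW : W (i + u.length) = W (i - v.length) := by
        have := h.bd.perW (i - v.length)
        rwa [hN, show i - v.length + (u.length + v.length) = i + u.length by omega] at this
      have h4 := h.red (i - v.length) h2 f1 f2 l (by rwa [e2]) (by rw [e2, ← hWW]; exact hW)
      have e3 : (u ++ v).take (i - v.length) ++ f1 :: f2 :: (u ++ v).drop (i - v.length + 1) =
          (u.take (i - v.length) ++ f1 :: f2 :: u.drop (i - v.length + 1)) ++ v := by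
        rw [List.take_append_of_le_length hiu.le, List.drop_append_of_le_length (by omega)]
        simp
      rw [e3, ar_rotg M hSC (u := u.take (i - v.length) ++ f1 :: f2 :: u.drop (i - v.length + 1))
        (v := v) (by
        have := hcl
        rw [hu, List.append_assoc, List.cons_append] at this
        have := Cl.tri this hT
        simpa using this), ar_rotg M hSC hcl] at h4
      rw [e1]
      exact h4
  · -- masks
    intro F μ hF hC hC0
    rcases Nat.eq_zero_or_pos v.length with hv0 | hv0
    · have hv : v = [] := List.eq_nil_of_length_eq_zero hv0
      subst hv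
      have hWp : ∀ i, W (i + u.length) = W i := by
        intro i
        have := h.bd.perW i
        rwa [List.append_nil] at this
      have h1 := h.mask F μ (by
        intro i hi hm
        have := hF i (by simpa using hi) hm
        simp only [hWp] at this
        simpa using this) (by
        intro i hi m1 m2
        have := hC i (by simpa using hi) m1 m2
        simpa only [hWp] using this) (by
        intro m1 m2
        have := hC0 (by simpa using m1) m2
        simpa only [hWp] using this)
      simpa using h1
    rcases Nat.eq_zero_or_pos u.length with hu0 | hu0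
    · have hu : u = [] := List.eq_nil_of_length_eq_zero hu0
      subst hu
      have h1 := h.mask F μ (by
        intro i hi hm
        have := hF i (by simpa using hi) hm
        simpa using this) (by
        intro i hi m1 m2
        have := hC i (by simpa using hi) m1 m2
        simpa using this) (by
        intro m1 m2
        have := hC0 (by simpa using m1) m2
        simpa using this)
      simpa using h1
    -- both parts are nonempty
    obtain ⟨N, hNpos⟩ : ∃ N, N = u.length + v.length := ⟨_, rfl⟩
    have i1 : ∀ i, i < u.length → (i + v.length) % N = i + v.length := by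
      intro i hi
      exact Nat.mod_eq_of_lt (by omega)
    have i2 : ∀ j, j < v.length → (u.length + j + v.length) % N = j := by
      intro j hj
      rw [show u.length + j + v.length = j + N by omega, Nat.add_mod_right]
      exact Nat.mod_eq_of_lt (by omega)
    have hWi1 : ∀ i, i < u.length → W (i + v.length + u.length) = W i := by
      intro i _
      have := h.bd.perW i
      rwa [hN, show i + (u.length + v.length) = i + v.length + u.length by omega] at this
    have g1 : ∀ i (hi : i < u.length), (u ++ v)[i]'(by rw [hN]; omega) = u[i] := fun i hi =>
      List.getElem_append_left hi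
    have g1' : ∀ i (hi : i < u.length),
        (v ++ u)[i + v.length]'(by rw [List.length_append]; omega) = u[i] := by
      intro i hi
      rw [List.getElem_append_right (by omega)]
      simp only [Nat.add_sub_cancel]
    have g2 : ∀ j (hj : j < v.length), (u ++ v)[u.length + j]'(by rw [hN]; omega) = v[j] := by
      intro j hj
      rw [List.getElem_append_right (by omega)]
      simp only [Nat.add_sub_cancel_left]
    have g2' : ∀ j (hj : j < v.length), (v ++ u)[j]'(by rw [List.length_append]; omega) = v[j] :=
      fun j hj => List.getElem_append_left hj
    have h1 := h.mask (fun i => F ((i + v.length) % N)) (fun i => μ ((i + v.length) % N)) (by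
      intro i hi hm
      have hi' : i < u.length + v.length := by rwa [hN] at hi
      rcases Nat.lt_or_ge i u.length with q | q
      · simp only [i1 i q] at hm ⊢
        have := hF (i + v.length) (by rw [List.length_append]; omega) hm
        simp only [g1' i q, hWi1 i q] at this
        rw [g1 i q]
        exact this
      · obtain ⟨j, rfl⟩ : ∃ j, i = u.length + j := ⟨i - u.length, by omega⟩
        have hj : j < v.length := by omega
        simp only [i2 j hj] at hm ⊢
        have := hF j (by rw [List.length_append]; omega) hm
        simp only [g2' j hj] at this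
        rw [g2 j hj, add_comm u.length j]
        exact this) (by
      intro i hi m1 m2
      have hi' : i + 1 < u.length + v.length := by rwa [hN] at hi
      rcases Nat.lt_or_ge (i + 1) u.length with q | q
      · simp only [i1 i (by omega), i1 (i + 1) q] at m1 m2
        have := hC (i + v.length) (by rw [List.length_append]; omega) m1
          (by rwa [show i + 1 + v.length = i + v.length + 1 by ring] at m2)
        simp only [show i + v.length + 1 = i + 1 + v.length by ring] at this
        rwa [hWi1 (i + 1) q] at this
      · rcases Nat.eq_or_lt_of_le q with q' | q'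
        · -- i + 1 = |u|
          have e1 : i < u.length := by omega
          simp only [i1 i e1] at m1
          have e2 : i + 1 = u.length + 0 := by omega
          rw [e2] at m2
          simp only [i2 0 hv0] at m2
          have := hC0 (by
            rwa [show (v ++ u).length - 1 = i + v.length by rw [List.length_append]; omega]) m2
          simp only [Nat.zero_add] at this
          rwa [q'.symm.trans (by rfl)]
        · obtain ⟨j, rfl⟩ : ∃ j, i = u.length + j := ⟨i - u.length, by omega⟩
          have hj : j + 1 < v.length := by omega
          simp only [i2 j (by omega)] at m1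
          have e2 : u.length + j + 1 = u.length + (j + 1) := by ring
          rw [e2] at m2
          simp only [i2 (j + 1) hj] at m2
          have := hC j (by rw [List.length_append]; omega) m1 m2
          rw [e2, add_comm u.length (j + 1)]
          exact this) (by
      intro m1 m2
      have e1 : (u ++ v).length - 1 = u.length + (v.length - 1) := by omega
      rw [e1] at m1
      simp only [i2 (v.length - 1) (by omega)] at m1
      simp only [i1 0 hu0] at m2
      have := hC (v.length - 1) (by rw [List.length_append]; omega) m1
        (by rwa [show v.length - 1 + 1 = 0 + v.length by omega])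
      simp only [show v.length - 1 + 1 = 0 + v.length by omega] at this
      rwa [hWi1 0 hu0] at this)
    -- compare the words
    have s1 := rp_shift (F := fun i => F ((i + v.length) % N)) (F' := F)
      (μ := fun i => μ ((i + v.length) % N)) (μ' := μ) (w := u) (k := 0) (k' := v.length) (by
        intro i hi
        have e : (0 + i + v.length) % N = v.length + i := by rw [Nat.zero_add, i1 i hi, add_comm]
        exact ⟨congrArg F e, congrArg μ e⟩)
    have s2 := rp_shift (F := fun i => F ((i + v.length) % N)) (F' := F)
      (μ := fun i => μ ((i + v.length) % N)) (μ' := μ) (w := v) (k := u.length) (k' := 0) (by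
        intro i hi
        have e : (u.length + i + v.length) % N = 0 + i := by rw [i2 i hi, Nat.zero_add]
        exact ⟨congrArg F e, congrArg μ e⟩)
    rw [rp_append, Nat.zero_add, s1.1, s2.1, hN, ct_add, Nat.zero_add, s1.2, s2.2,
      ar_rotg M hSC hcl] at h1
    rw [rp_append, Nat.zero_add, List.length_append, ct_add, Nat.zero_add]
    have hclr : S.Cl (rp F μ v.length u ++ rp F μ 0 v) := by
      obtain ⟨x, hx⟩ := hcl
      obtain ⟨y, p1, p2⟩ := isP_append.1 hx
      refine ⟨x, isP_append.2 ⟨y, ?_, ?_⟩⟩
      · refine rp_isP p1 ?_
        intro i hi hm
        have := (hF (i + v.length) (by rw [List.length_append]; omega)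
          (by rwa [add_comm])).1
        rw [g1' i hi] at this
        rwa [add_comm v.length i]
      · refine rp_isP p2 ?_
        intro i hi hm
        rw [Nat.zero_add] at hm ⊢
        have := (hF i (by rw [List.length_append]; omega) hm).1
        rwa [g2' i hi] at this
    rw [ar_rotg M hSC hclr] at h1
    omega

end gen

end Pool.Agent.ABA.B.H88R
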